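import Pool.Agent.helper66.JS.Defs2
import Pool.Agent.helper62.Prog
import Pool.Agent.H54.PT.Final

/-!
# Module T1: padding
-/

set_option autoImplicit false

namespace Pool.Agent.helper66.JS

open Turing Finset

namespace T1

open Pool.Agent.helper62 Pool.Agent.helper62.Prog Function
open Pool.Agent.H54.PT (trp trp_cons length_trp bitEncode_word)

/-- A program with a time bound gives a time bounded computation. -/
theorem cmp_of_prog {I : Type} [Fintype I] [DecidableEq I] (p : Prog I) (i o : I) {α : Type}
    (ea eb : α → List Bool) (T : α → ℕ)
    (h : ∀ a, Runs p (update (fun _ => []) i (ea a)) (update (fun _ => []) o (eb a)) (T a)) :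
    Cmp (Set.univ : Set α) ea eb (fun a => T a + 1) := by
  refine ⟨machine p i o, Equiv.refl Bool, Equiv.refl Bool, ?_⟩
  intro a _
  obtain ⟨n, hn, he⟩ := h a
  refine ⟨⟨⟨n + 1, ?_⟩, Nat.succ_le_succ hn⟩⟩
  obtain ⟨v', hv⟩ := code_correct (machine p i o).m he (fun l => some l) none
    (fun l => rfl) none
  have hinit : initList (machine p i o) (List.map (Equiv.refl Bool).symm (ea a)) =
      ⟨some (some (entry p)), none, update (fun _ => []) i (ea a)⟩ := by
    have e1 : (initList (machine p i o) (List.map (Equiv.refl Bool).symm (ea a))).stk =
        (update (fun _ => []) i (ea a) : I → List Bool) := by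
      refine (initList_stk (machine p i o) _).trans ?_
      exact congrArg (fun l : List Bool => (update (fun _ => []) i l : I → List Bool))
        (List.map_id (ea a))
    exact congrArg (fun s : I → List Bool => (⟨some (some (entry p)), none, s⟩ :
      TM2.Cfg (fun _ : I => Bool) (Option (Lab p)) (Option Bool))) e1
  have hhalt : haltList (machine p i o) (List.map (Equiv.refl Bool).symm (eb a)) =
      ⟨none, none, update (fun _ => []) o (eb a)⟩ := by
    have e1 : (haltList (machine p i o) (List.map (Equiv.refl Bool).symm (eb a))).stk =
        (update (fun _ => []) o (eb a) : I → List Bool) := by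
      refine (haltList_stk (machine p i o) _).trans ?_
      exact congrArg (fun l : List Bool => (update (fun _ => []) o l : I → List Bool))
        (List.map_id (eb a))
    exact congrArg (fun s : I → List Bool => (⟨none, none, s⟩ :
      TM2.Cfg (fun _ : I => Bool) (Option (Lab p)) (Option Bool))) e1
  refine (congrArg (fun c => (flip bind (machine p i o).step)^[n + 1] (some c)) hinit).trans ?_
  refine Eq.trans ?_ (congrArg some hhalt.symm)
  exact iterate_trans hv rfl

/-- five stacks -/
def st (a b c d e : List Bool) : Fin 5 → List Bool := ![a, b, c, d, e]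

section upd
variable (a b c d e x : List Bool)

lemma u0 : update (st a b c d e) 0 x = st x b c d e := by
  funext i; fin_cases i <;> rfl
lemma u1 : update (st a b c d e) 1 x = st a x c d e := by
  funext i; fin_cases i <;> rfl
lemma u2 : update (st a b c d e) 2 x = st a b x d e := by
  funext i; fin_cases i <;> rfl
lemma u3 : update (st a b c d e) 3 x = st a b c x e := by
  funext i; fin_cases i <;> rfl
lemma u4 : update (st a b c d e) 4 x = st a b c d x := by
  funext i; fin_cases i <;> rfl
end upd

lemma push1 (b0 : Bool) (a b c d e : List Bool) :
    Runs (.push 1 b0) (st a b c d e) (st a (b0 :: b) c d e) 1 := by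
  have := Runs.push 1 b0 (st a b c d e)
  rwa [u1] at this

lemma push2 (b0 : Bool) (a b c d e : List Bool) :
    Runs (.push 2 b0) (st a b c d e) (st a b (b0 :: c) d e) 1 := by
  have := Runs.push 2 b0 (st a b c d e)
  rwa [u2] at this

lemma push3 (b0 : Bool) (a b c d e : List Bool) :
    Runs (.push 3 b0) (st a b c d e) (st a b c (b0 :: d) e) 1 := by
  have := Runs.push 3 b0 (st a b c d e)
  rwa [u3] at this

lemma push4 (b0 : Bool) (a b c d e : List Bool) :
    Runs (.push 4 b0) (st a b c d e) (st a b c d (b0 :: e)) 1 := by
  have := Runs.push 4 b0 (st a b c d e)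
  rwa [u4] at this

/-! ### doubling -/

def dblA : Prog (Fin 5) := .loop 2 .skip (.seq (.push 3 true) (.push 3 true))

def dblB : Prog (Fin 5) := .loop 3 .skip (.push 2 true)

lemma run_dblA (a b e : List Bool) : ∀ (u : ℕ) (d : List Bool),
    Runs dblA (st a b (List.replicate u true) d e)
      (st a b [] (List.replicate (2 * u) true ++ d) e) (3 * u + 1) := by
  intro u
  induction u with
  | zero => intro d; exact Runs.loop_nil rfl
  | succ u ih =>
    intro d
    have h1 : Runs (if true then (.seq (.push 3 true) (.push 3 true)) else .skip)
        (update (st a b (List.replicate (u + 1) true) d e) 2 (List.replicate u true))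
        (st a b (List.replicate u true) (true :: true :: d) e) 2 := by
      rw [u2]
      exact Runs.seq (push3 true _ _ _ _ _) (push3 true _ _ _ _ _)
    have h2 := ih (true :: true :: d)
    have h3 := Runs.loop_cons (k := 2) (b := true) (l := List.replicate u true) rfl h1 h2
    refine h3.mono' ?_ (by omega)
    congr 1
    have e1 : List.replicate (2 * (u + 1)) true
        = List.replicate (2 * u) true ++ [true, true] := by
      rw [show 2 * (u + 1) = 2 * u + 2 by ring, List.replicate_add]
      rfl
    rw [e1, List.append_assoc]
    rfl

lemma run_dblB (a b e : List Bool) : ∀ (v : ℕ) (c : List Bool),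
    Runs dblB (st a b c (List.replicate v true) e)
      (st a b (List.replicate v true ++ c) [] e) (2 * v + 1) := by
  intro v
  induction v with
  | zero => intro c; exact Runs.loop_nil rfl
  | succ v ih =>
    intro c
    have h1 : Runs (if true then (.push 2 true) else .skip)
        (update (st a b c (List.replicate (v + 1) true) e) 3 (List.replicate v true))
        (st a b (true :: c) (List.replicate v true) e) 1 := by
      rw [u3]
      exact push2 true _ _ _ _ _
    have h2 := ih (true :: c)
    have h3 := Runs.loop_cons (k := 3) (b := true) (l := List.replicate v true) rfl h1 h2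
    refine h3.mono' ?_ (by omega)
    congr 1
    rw [List.replicate_succ', List.append_assoc]
    rfl

def dbl : Prog (Fin 5) := .seq dblA dblB

lemma run_dbl (a b e : List Bool) (u : ℕ) :
    Runs dbl (st a b (List.replicate u true) [] e)
      (st a b (List.replicate (2 * u) true) [] e) (7 * u + 2) := by
  have h1 := run_dblA a b e u []
  rw [List.append_nil] at h1
  have h2 := run_dblB a b e (2 * u) []
  rw [List.append_nil] at h2
  exact (Runs.seq h1 h2).mono (by omega)

/-! ### reading the input in groups -/

def grp : ℕ → Prog (Fin 5)
  | 0 => dbl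
  | j + 1 => .ifp 0 .skip (.seq (.push 1 false) (grp j)) (.seq (.push 1 true) (grp j))

lemma run_grp_full (e : List Bool) (u : ℕ) (z : List Bool) : ∀ (y b : List Bool),
    Runs (grp y.length) (st (y ++ z) b (List.replicate u true) [] e)
      (st z (y.reverse ++ b) (List.replicate (2 * u) true) [] e)
      (2 * y.length + 7 * u + 2) := by
  intro y
  induction y with
  | nil => intro b; exact (run_dbl z b e u).mono (by simp)
  | cons b0 y ih =>
    intro b
    have h1 := ih (b0 :: b)
    have h2 : Runs (if b0 then (.seq (.push 1 true) (grp y.length))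
        else (.seq (.push 1 false) (grp y.length)))
        (update (st (b0 :: y ++ z) b (List.replicate u true) [] e) 0 (y ++ z))
        (st z (y.reverse ++ (b0 :: b)) (List.replicate (2 * u) true) [] e)
        (1 + (2 * y.length + 7 * u + 2)) := by
      rw [u0]
      cases b0
      · exact Runs.seq (push1 false _ _ _ _ _) h1
      · exact Runs.seq (push1 true _ _ _ _ _) h1
    have h3 := Runs.ifp (k := 0) (pn := .skip) (b := b0) (l := y ++ z) rfl h2
    refine h3.mono' ?_ (by simp; omega)
    rw [List.reverse_cons, List.append_assoc]
    rfl

lemma run_grp_short (c e : List Bool) : ∀ (j : ℕ) (x b : List Bool), x.length < j →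
    Runs (grp j) (st x b c [] e) (st [] (x.reverse ++ b) c [] e) (2 * x.length + 2) := by
  intro j
  induction j with
  | zero => intro x b h; omega
  | succ j ih =>
    intro x b h
    cases x with
    | nil =>
      have h1 : Runs (grp (j + 1)) (st [] b c [] e) (st [] b c [] e) 2 :=
        ⟨2, le_rfl, .ifp_nil rfl (.skip _)⟩
      exact h1.mono (by simp)
    | cons b0 x =>
      have h1 := ih x (b0 :: b) (by simpa using h)
      have h2 : Runs (if b0 then (.seq (.push 1 true) (grp j))
          else (.seq (.push 1 false) (grp j)))
          (update (st (b0 :: x) b c [] e) 0 x)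
          (st [] (x.reverse ++ (b0 :: b)) c [] e)
          (1 + (2 * x.length + 2)) := by
        rw [u0]
        cases b0
        · exact Runs.seq (push1 false _ _ _ _ _) h1
        · exact Runs.seq (push1 true _ _ _ _ _) h1
      have h3 := Runs.ifp (k := 0) (pn := .skip) (b := b0) (l := x) rfl h2
      refine h3.mono' ?_ (by simp; omega)
      rw [List.reverse_cons, List.append_assoc]
      rfl

def rd (m : ℕ) : Prog (Fin 5) :=
  .loop 0 (.seq (.push 1 false) (grp (m - 1))) (.seq (.push 1 true) (grp (m - 1)))

lemma run_rd (m : ℕ) (hm : 0 < m) (e : List Bool) : ∀ (n : ℕ) (x : List Bool), x.length = n →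
    ∀ (b : List Bool) (u : ℕ), ∃ t, t + 7 * u ≤ 7 * (u * 2 ^ (x.length / m)) + 10 * x.length + 1 ∧
    Runs (rd m) (st x b (List.replicate u true) [] e)
      (st [] (x.reverse ++ b) (List.replicate (u * 2 ^ (x.length / m)) true) [] e) t := by
  intro n
  induction n using Nat.strong_induction_on with
  | _ n ih =>
  intro x hx b u
  cases x with
  | nil =>
    refine ⟨1, by simp; omega, ?_⟩
    have h1 : Runs (rd m) (st [] b (List.replicate u true) [] e)
      (st [] b (List.replicate u true) [] e) 1 := Runs.loop_nil rfl
    refine h1.mono' ?_ le_rfl
    simp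
  | cons b0 x =>
    rcases Nat.lt_or_ge x.length (m - 1) with h | h
    · -- the last, incomplete group
      have hq : (b0 :: x).length / m = 0 := by
        rw [List.length_cons]
        exact Nat.div_eq_of_lt (by omega)
      have h1 := run_grp_short (List.replicate u true) e (m - 1) x (b0 :: b) h
      have h2 : Runs (if b0 then (.seq (.push 1 true) (grp (m - 1)))
          else (.seq (.push 1 false) (grp (m - 1))))
          (update (st (b0 :: x) b (List.replicate u true) [] e) 0 x)
          (st [] (x.reverse ++ (b0 :: b)) (List.replicate u true) [] e)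
          (1 + (2 * x.length + 2)) := by
        rw [u0]
        cases b0
        · exact Runs.seq (push1 false _ _ _ _ _) h1
        · exact Runs.seq (push1 true _ _ _ _ _) h1
      have h3 : Runs (rd m) (st [] (x.reverse ++ (b0 :: b)) (List.replicate u true) [] e)
        (st [] (x.reverse ++ (b0 :: b)) (List.replicate u true) [] e) 1 := Runs.loop_nil rfl
      refine ⟨_, ?_, (Runs.loop_cons (k := 0) (b := b0) (l := x) rfl h2 h3).mono' ?_ le_rfl⟩
      · rw [hq, List.length_cons, pow_zero, mul_one]
        omega
      · rw [hq, pow_zero, mul_one, List.reverse_cons, List.append_assoc]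
        rfl
    · -- a complete group
      obtain ⟨y, z, hyz, hy⟩ : ∃ y z, x = y ++ z ∧ y.length = m - 1 :=
        ⟨x.take (m - 1), x.drop (m - 1), (List.take_append_drop _ _).symm, by
          rw [List.length_take]; omega⟩
      have hlen : (b0 :: x).length = z.length + m := by
        rw [hyz, List.length_cons, List.length_append]; omega
      have hq : (b0 :: x).length / m = z.length / m + 1 := by
        rw [hlen, Nat.add_div_right _ hm]
      have h1 := run_grp_full e u z y (b0 :: b)
      rw [hy] at h1
      have h2 : Runs (if b0 then (.seq (.push 1 true) (grp (m - 1)))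
          else (.seq (.push 1 false) (grp (m - 1))))
          (update (st (b0 :: x) b (List.replicate u true) [] e) 0 x)
          (st z (y.reverse ++ (b0 :: b)) (List.replicate (2 * u) true) [] e)
          (1 + (2 * (m - 1) + 7 * u + 2)) := by
        rw [u0, hyz]
        cases b0
        · exact Runs.seq (push1 false _ _ _ _ _) h1
        · exact Runs.seq (push1 true _ _ _ _ _) h1
      obtain ⟨t, ht, h3⟩ := ih z.length (by rw [← hx, hlen]; omega) z rfl
        (y.reverse ++ (b0 :: b)) (2 * u)
      refine ⟨_, ?_, (Runs.loop_cons (k := 0) (b := b0) (l := x) rfl h2 h3).mono' ?_ le_rfl⟩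
      · rw [hq, hlen]
        have e1 : u * 2 ^ (z.length / m + 1) = 2 * u * 2 ^ (z.length / m) := by
          rw [pow_succ]; ring
        rw [e1]
        omega
      · rw [hq]
        have e1 : u * 2 ^ (z.length / m + 1) = 2 * u * 2 ^ (z.length / m) := by
          rw [pow_succ]; ring
        rw [e1, hyz]
        congr 1
        simp

/-! ### output -/

def outx : Prog (Fin 5) :=
  .loop 1 (.seq (.push 4 false) (.seq (.push 4 false) (.push 4 true)))
    (.seq (.push 4 false) (.seq (.push 4 true) (.push 4 true)))

lemma trp_append (u v : List Bool) : trp (u ++ v) = trp u ++ trp v := by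
  simp [trp]

lemma run_outx (a c d : List Bool) : ∀ (y e : List Bool),
    Runs outx (st a y c d e) (st a [] c d (trp y.reverse ++ e)) (4 * y.length + 1) := by
  intro y
  induction y with
  | nil => intro e; exact Runs.loop_nil rfl
  | cons b0 y ih =>
    intro e
    have h1 : Runs (if b0 then (.seq (.push 4 false) (.seq (.push 4 true) (.push 4 true)))
        else (.seq (.push 4 false) (.seq (.push 4 false) (.push 4 true))))
        (update (st a (b0 :: y) c d e) 1 y) (st a y c d (true :: b0 :: false :: e)) 3 := by
      rw [u1]
      cases b0
      · exact (Runs.seq (push4 false _ _ _ _ _)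
          (Runs.seq (push4 false _ _ _ _ _) (push4 true _ _ _ _ _))).mono (by omega)
      · exact (Runs.seq (push4 false _ _ _ _ _)
          (Runs.seq (push4 true _ _ _ _ _) (push4 true _ _ _ _ _))).mono (by omega)
    have h2 := ih (true :: b0 :: false :: e)
    have h3 := Runs.loop_cons (k := 1) (b := b0) (l := y) rfl h1 h2
    refine h3.mono' ?_ (by simp; omega)
    congr 1
    rw [List.reverse_cons, trp_append, List.append_assoc]
    rfl

def outN : Prog (Fin 5) :=
  .loop 2 .skip (.seq (.push 4 false) (.seq (.push 4 true) (.push 4 true)))

lemma run_outN (a b d : List Bool) : ∀ (u : ℕ) (e : List Bool),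
    Runs outN (st a b (List.replicate u true) d e)
      (st a b [] d (trp (List.replicate u true) ++ e)) (4 * u + 1) := by
  intro u
  induction u with
  | zero => intro e; exact Runs.loop_nil rfl
  | succ u ih =>
    intro e
    have h1 : Runs (if true then (.seq (.push 4 false) (.seq (.push 4 true) (.push 4 true)))
        else .skip)
        (update (st a b (List.replicate (u + 1) true) d e) 2 (List.replicate u true))
        (st a b (List.replicate u true) d (true :: true :: false :: e)) 3 := by
      rw [u2]
      exact (Runs.seq (push4 false _ _ _ _ _)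
          (Runs.seq (push4 true _ _ _ _ _) (push4 true _ _ _ _ _))).mono (by omega)
    have h2 := ih (true :: true :: false :: e)
    have h3 := Runs.loop_cons (k := 2) (b := true) (l := List.replicate u true) rfl h1 h2
    refine h3.mono' ?_ (by omega)
    congr 1
    rw [List.replicate_succ', trp_append, List.append_assoc]
    rfl

def padP (k D m : ℕ) : Prog (Fin 5) :=
  .seq (pushes 2 (List.replicate D true)) (.seq (rd m) (.seq outx (.seq (pushes 4 (trp [false]).reverse)
    (.seq outN (pushes 4 (trp (List.replicate k true ++ [false])).reverse)))))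

lemma run_padP (k D m : ℕ) (hm : 0 < m) (x : List Bool) :
    Runs (padP k D m) (st x [] [] [] [])
      (st [] [] [] [] (trp (padw k (D * 2 ^ (x.length / m)) x)))
      (11 * (D * 2 ^ (x.length / m)) + 14 * x.length + D + 3 * k + 13) := by
  have h1 := Runs.pushes (k := (2 : Fin 5)) (List.replicate D true) (st x [] [] [] [])
  rw [u2] at h1
  have e1 : (List.replicate D true).reverse ++ (st x [] [] [] []) 2 = List.replicate D true := by
    rw [List.reverse_replicate]
    exact List.append_nil _
  rw [e1, List.length_replicate] at h1
  obtain ⟨t, ht, h2⟩ := run_rd m hm [] x.length x rfl [] D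
  rw [List.append_nil] at h2
  set N := D * 2 ^ (x.length / m) with hN
  have h3 := run_outx [] (List.replicate N true) [] x.reverse []
  rw [List.reverse_reverse, List.append_nil, List.length_reverse] at h3
  have h4 := Runs.pushes (k := (4 : Fin 5)) (trp [false]).reverse
    (st [] [] (List.replicate N true) [] (trp x))
  rw [u4, List.reverse_reverse] at h4
  have h5 := run_outN [] [] [] N (trp [false] ++ trp x)
  have h6 := Runs.pushes (k := (4 : Fin 5)) (trp (List.replicate k true ++ [false])).reverse
    (st [] [] [] [] (trp (List.replicate N true) ++ (trp [false] ++ trp x)))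
  rw [u4, List.reverse_reverse] at h6
  have h := Runs.seq h1 (Runs.seq h2 (Runs.seq h3 (Runs.seq h4 (Runs.seq h5 h6))))
  refine h.mono' ?_ ?_
  · congr 1
    show trp (List.replicate k true ++ [false]) ++ (trp (List.replicate N true) ++
      (trp [false] ++ trp x)) = trp (padw k N x)
    rw [← trp_append, ← trp_append, ← trp_append]
    unfold padw
    simp
  · rw [List.length_reverse, List.length_reverse, length_trp, length_trp, List.length_append,
      List.length_replicate]
    simp only [List.length_singleton]
    omega

end T1

theorem padder (k D m : ℕ) (hm : 0 < m) :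
    ∃ C, Cmp (Set.univ : Set (List Bool)) (fun x => x)
      (fun x => N487b59b3.bitEncode (padw k (D * 2 ^ (x.length / m)) x))
      (fun x => C * (2 ^ (x.length / m) + x.length + 1)) := by
  have h := T1.cmp_of_prog (T1.padP k D m) 0 4 (fun x : List Bool => x)
    (fun x => N487b59b3.bitEncode (padw k (D * 2 ^ (x.length / m)) x))
    (fun x => 11 * (D * 2 ^ (x.length / m)) + 14 * x.length + D + 3 * k + 13) (by
      intro x
      have h1 := T1.run_padP k D m hm x
      have e1 : (Function.update (fun _ => []) 0 x : Fin 5 → List Bool) = T1.st x [] [] [] [] := by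
        funext i; fin_cases i <;> rfl
      have e2 : ∀ y : List Bool, (Function.update (fun _ => []) 4 y : Fin 5 → List Bool)
          = T1.st [] [] [] [] y := by
        intro y; funext i; fin_cases i <;> rfl
      rw [e1, e2, Pool.Agent.H54.PT.bitEncode_word]
      exact h1)
  obtain ⟨tm, ei, eo, h⟩ := h
  refine ⟨11 * D + 3 * k + 14 + D + 14, tm, ei, eo, ?_⟩
  intro x hx
  obtain ⟨g⟩ := h x hx
  refine ⟨{ steps := g.steps
            evals_in_steps := g.evals_in_steps
            steps_le_m := g.steps_le_m.trans ?_ }⟩
  show 11 * (D * 2 ^ (x.length / m)) + 14 * x.length + D + 3 * k + 13 + 1 ≤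
    (11 * D + 3 * k + 14 + D + 14) * (2 ^ (x.length / m) + x.length + 1)
  generalize 2 ^ (x.length / m) = q
  nlinarith [Nat.zero_le (D * q), Nat.zero_le (k * q), Nat.zero_le (D * x.length),
    Nat.zero_le (k * x.length), Nat.zero_le q, Nat.zero_le x.length]

end Pool.Agent.helper66.JS
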