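import Pool.Agent.helper66.JS.Defs2
import Pool.Agent.helper81.PolyComp

/-!
# Module T2: composition of time bounded computations
-/

set_option autoImplicit false

namespace Pool.Agent.helper66.JS

open Turing Finset Pool.Agent.helper81.PolyComp

theorem T2.len_aux (tm : FinTM2) : ∃ c : ℕ, ∀ (u : List (tm.Γ tm.k₀)) (v : List (tm.Γ tm.k₁))
    (n : ℕ), Run tm.step n (initList tm u) (haltList tm v) → v.length ≤ u.length + n * c := by
  let _ := tm.kDecidableEq
  let _ := tm.ΛFin
  refine ⟨∑ l, pushes (tm.m l), ?_⟩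
  intro u v n r
  have h := run_len (f := tm.step) (fun cf => (cf.stk tm.k₁).length) (∑ l, pushes (tm.m l))
    (fun x y hxy => length_step tm.m x y hxy tm.k₁) r
  rw [initList_eq, haltList_eq] at h
  have h3 : ((Function.update (fun k => ([] : List (tm.Γ k))) tm.k₁ v) tm.k₁).length
      = v.length := by
    rw [Function.update_self]
  have h4 : ((Function.update (fun k => ([] : List (tm.Γ k))) tm.k₀ u) tm.k₁).length
      ≤ u.length := by
    by_cases hk : tm.k₁ = tm.k₀
    · have : ∀ k, k = tm.k₀ → ((Function.update (fun k => ([] : List (tm.Γ k))) tm.k₀ u)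
          k).length = u.length := by
        rintro k rfl
        rw [Function.update_self]
      rw [this _ hk]
    · rw [Function.update_of_ne hk]; simp
  rw [← h3]
  exact h.trans (Nat.add_le_add_right h4 _)

theorem cmp_length {α : Type} (dom : Set α) (ea eb : α → List Bool) (T : α → ℕ)
    (h : Cmp dom ea eb T) : ∃ C, ∀ a ∈ dom, (eb a).length ≤ (ea a).length + C * T a := by
  obtain ⟨tm, ei, eo, h⟩ := h
  obtain ⟨c, hc⟩ := T2.len_aux tm
  refine ⟨c, fun a ha => ?_⟩
  obtain ⟨h1⟩ := h a ha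
  obtain ⟨n, hn, r⟩ := run_of_outputs h1
  have h2 := hc _ _ _ r
  rw [List.length_map, List.length_map] at h2
  refine h2.trans (Nat.add_le_add_left ?_ _)
  rw [mul_comm]
  exact Nat.mul_le_mul_left _ hn

theorem cmp_comp {α : Type} (dom : Set α) (ea eb ec : α → List Bool) (T1 T2 : α → ℕ)
    (h1 : Cmp dom ea eb T1) (h2 : Cmp dom eb ec T2) :
    ∃ C, Cmp dom ea ec (fun a => C * (T1 a + T2 a + (ea a).length + 1)) := by
  obtain ⟨D, hD⟩ := cmp_length dom ea eb T1 h1
  obtain ⟨M1, i1, o1, h1⟩ := h1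
  obtain ⟨M2, i2, o2, h2⟩ := h2
  let t : M1.Γ M1.k₁ → M2.Γ M2.k₀ := fun a => i2.symm (o1 a)
  let d : M2.Γ M2.k₀ := i2.symm default
  refine ⟨2 * D + 3, comb M1 M2 t d, i1, o2, ?_⟩
  intro a ha
  obtain ⟨g1⟩ := h1 a ha
  obtain ⟨g2⟩ := h2 a ha
  obtain ⟨n1, hn1, r1⟩ := run_of_outputs g1
  obtain ⟨n2, hn2, r2⟩ := run_of_outputs g2
  have hy : ((eb a).map o1.symm).map t = (eb a).map i2.symm := by
    rw [List.map_map]
    apply List.map_congr_left
    intro b _
    simp [t]
  rw [← hy] at r2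
  have r := comb_run M1 M2 t d _ _ _ n1 n2 r1 r2
  rw [List.length_map] at r
  refine ⟨{ steps := _
            evals_in_steps := (run_iff _ _ _ _).1 r
            steps_le_m := ?_ }⟩
  have h3 := hD a ha
  have h4 : n1 + ((eb a).length + 1) + ((eb a).length + 1) + n2
      ≤ T1 a + 2 * ((ea a).length + D * T1 a) + 2 + T2 a := by omega
  refine h4.trans ?_
  have e : (2 * D + 3) * (T1 a + T2 a + (ea a).length + 1)
      = 2 * (D * T1 a) + 2 * (D * T2 a) + 2 * (D * (ea a).length) + 2 * D + 3 * T1 a + 3 * T2 a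
        + 3 * (ea a).length + 3 := by ring
  show _ ≤ (2 * D + 3) * (T1 a + T2 a + (ea a).length + 1)
  rw [e]
  generalize D * T1 a = p1
  generalize D * T2 a = p2
  generalize D * (ea a).length = p3
  omega

end Pool.Agent.helper66.JS
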